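import Pool.Agent.Q100.GoodSeq

/-!
# A good sequence without ratio limits

The definitions are in `Pool/Agent/Q100/GoodDefs.lean`. The sequence is `λ_n = 2` if `n` is a
square and `λ_n = 1` otherwise.
-/

set_option autoImplicit false

namespace Pool.Agent.Results.MP_d99131_an.NoRatioLimit

open Q100.GoodSeq

universe u

/-- The negated form of Q1: there is a good sequence, taking only the values `1` and `2`, such that
for no `τ ≥ 1` the limit of `|λ_n| / |λ_{n+τ}|` exists in `[0, ∞]`. -/
theorem result : ∃ lam : ℕ → ℂ, (∀ n, lam n = 1 ∨ lam n = 2) ∧ Good.{u} lam ∧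
    ∀ τ : ℕ, 1 ≤ τ → ¬ RatioLimitExists lam τ := by
  refine ⟨lam, fun n => ?_, good_lam, no_limit⟩
  by_cases h : n ∈ Sq
  · exact Or.inr (lam_sq h)
  · exact Or.inl (lam_nsq h)

end Pool.Agent.Results.MP_d99131_an.NoRatioLimit
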